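import Pool.Agent.Work.MP_ef7f46_tn.Interface

/-!
# Block DMA (MP_ef7f46_co, project TN): dense models by a perceptron type algorithm
-/

set_option autoImplicit false
open Classical Finset

noncomputable section

namespace TN

namespace DMA

/-- the derivative of `ph` -/
def cl (x : ℝ) : ℝ := if x ≤ 0 then 0 else if x ≤ 1 then x else 1

/-- a smoothed positive part -/
def ph (x : ℝ) : ℝ := if x ≤ 0 then 0 else if x ≤ 1 then x ^ 2 / 2 else x - 1 / 2

theorem cl_mem (x : ℝ) : 0 ≤ cl x ∧ cl x ≤ 1 := by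
  unfold cl
  split_ifs <;> constructor <;> linarith

theorem ph_step (x y : ℝ) : ph y ≤ ph x + cl x * (y - x) + (y - x) ^ 2 / 2 := by
  unfold cl ph
  split_ifs with h1 h2 h3 h4 h5 h6 h7 h8 <;> nlinarith [sq_nonneg (y - x), sq_nonneg (y - 1),
    sq_nonneg (x - 1), sq_nonneg x, sq_nonneg y]

theorem ph_nonneg (x : ℝ) : 0 ≤ ph x := by
  unfold ph
  split_ifs with h1 h2
  · exact le_refl _
  · positivity
  · linarith

theorem ph_lb (x : ℝ) : x - 1 / 2 ≤ ph x := by
  unfold ph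
  split_ifs with h1 h2
  · linarith
  · nlinarith [sq_nonneg (x - 1)]
  · linarith

/-- the scaled smoothed positive part -/
def ps (ε x : ℝ) : ℝ := 2 / ε * ph ((ε * x + 1) / 2)

theorem ps_step (ε : ℝ) (hε : 0 < ε) (x h : ℝ) (hh : h ^ 2 ≤ 1) :
    ps ε (x + h) ≤ ps ε x + cl ((ε * x + 1) / 2) * h + ε / 4 := by
  have h1 := ph_step ((ε * x + 1) / 2) ((ε * (x + h) + 1) / 2)
  have h2 : (ε * (x + h) + 1) / 2 - (ε * x + 1) / 2 = ε * h / 2 := by ring
  rw [h2] at h1
  unfold ps
  have h3 : 0 < 2 / ε := by positivity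
  have h4 := mul_le_mul_of_nonneg_left h1 h3.le
  have h5 : 2 / ε * (ph ((ε * x + 1) / 2) + cl ((ε * x + 1) / 2) * (ε * h / 2) +
      (ε * h / 2) ^ 2 / 2) = 2 / ε * ph ((ε * x + 1) / 2) + cl ((ε * x + 1) / 2) * h +
      ε / 4 * h ^ 2 := by
    field_simp
    ring
  rw [h5] at h4
  have h6 : ε / 4 * h ^ 2 ≤ ε / 4 := by
    have := mul_le_mul_of_nonneg_left hh (by positivity : 0 ≤ ε / 4)
    linarith
  linarith

theorem ps_ge (ε : ℝ) (hε : 0 < ε) (x : ℝ) : max 0 x ≤ ps ε x := by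
  apply max_le
  · unfold ps
    exact mul_nonneg (by positivity) (ph_nonneg _)
  · unfold ps
    have h1 := ph_lb ((ε * x + 1) / 2)
    have h3 : 0 < 2 / ε := by positivity
    have h4 := mul_le_mul_of_nonneg_left h1 h3.le
    have h5 : 2 / ε * ((ε * x + 1) / 2 - 1 / 2) = x := by
      field_simp
      ring
    rw [h5] at h4
    exact h4

theorem ps_zero (ε : ℝ) (hε : 0 < ε) : ps ε 0 = 1 / (4 * ε) := by
  unfold ps ph
  have h1 : ¬ ((ε * 0 + 1) / 2 ≤ 0) := by norm_num
  have h2 : (ε * 0 + 1) / 2 ≤ 1 := by norm_num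
  rw [if_neg h1, if_pos h2]
  field_simp
  ring

/-- the sequence of sums -/
def sq {Q : Type} (S : (Q → ℝ) → (Q → ℝ)) : ℕ → (Q → ℝ)
  | 0 => fun _ => 0
  | r + 1 => fun y => sq S r y + S (sq S r) y

theorem sq_sum {Q : Type} (S : (Q → ℝ) → (Q → ℝ)) (r : ℕ) (y : Q) :
    ∑ i : Fin r, S (sq S i) y = sq S r y := by
  induction r with
  | zero => simp [sq]
  | succ r ih =>
    rw [Fin.sum_univ_castSucc]
    simp only [Fin.val_castSucc, Fin.val_last]
    rw [ih]
    rfl

end DMA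

open DMA in
theorem dma_ok : Stmt_DMA := by
  intro Q _ _ b β F ε R hb hF hε hR hH J
  by_contra hcon
  push Not at hcon
  have hb0 : (0 : ℝ) < b := by exact_mod_cast hb
  have hq0 : (0 : ℝ) < (Fintype.card Q : ℝ) := by exact_mod_cast Fintype.card_pos
  -- the choice of a test
  have hsel : ∀ G : Q → ℝ, ∃ H : Q → ℝ, (H ∈ F ∨ -H ∈ F) ∧
      (∑ y, cl ((ε * G y + 1) / 2) * H y) / (Fintype.card Q : ℝ) + ε <
        (∑ j ∈ J, H (β j)) / b := by
    intro G
    obtain ⟨f, hfF, hf⟩ := hcon (fun y => cl ((ε * G y + 1) / 2)) (fun y => cl_mem _)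
    rcases lt_abs.1 hf with h | h
    · exact ⟨f, Or.inl hfF, by linarith⟩
    · refine ⟨-f, Or.inr (by rw [neg_neg]; exact hfF), ?_⟩
      have h1 : (∑ y, cl ((ε * G y + 1) / 2) * (-f) y) = -∑ y, cl ((ε * G y + 1) / 2) * f y := by
        rw [← Finset.sum_neg_distrib]
        exact Finset.sum_congr rfl (fun y _ => by simp)
      have h2 : (∑ j ∈ J, (-f) (β j)) = -∑ j ∈ J, f (β j) := by
        rw [← Finset.sum_neg_distrib]
        exact Finset.sum_congr rfl (fun y _ => by simp)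
      rw [h1, h2, neg_div, neg_div]
      linarith
  choose S hS1 hS2 using hsel
  have hSb : ∀ G : Q → ℝ, ∀ y, (S G y) ^ 2 ≤ 1 := by
    intro G y
    rcases hS1 G with h | h
    · obtain ⟨h0, h1⟩ := hF _ h y
      nlinarith
    · obtain ⟨h0, h1⟩ := hF _ h y
      simp only [Pi.neg_apply] at h0 h1
      nlinarith
  -- the potential
  have hmain : ∀ r : ℕ, (∑ y, ps ε (sq S r y)) / (Fintype.card Q : ℝ) - 1 / (4 * ε) +
      3 / 4 * ε * r ≤ (∑ j ∈ J, sq S r (β j)) / b := by
    intro r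
    induction r with
    | zero =>
      have h1 : (∑ y : Q, ps ε (sq S 0 y)) = (Fintype.card Q : ℝ) * (1 / (4 * ε)) := by
        have : ∀ y : Q, ps ε (sq S 0 y) = 1 / (4 * ε) := fun y => ps_zero ε hε
        rw [Finset.sum_congr rfl (fun y _ => this y)]
        simp
      have h2 : (∑ j ∈ J, sq S 0 (β j)) = 0 := by
        apply Finset.sum_eq_zero
        intro j _
        rfl
      rw [h1, h2]
      have h3 : (Fintype.card Q : ℝ) * (1 / (4 * ε)) / (Fintype.card Q : ℝ) = 1 / (4 * ε) := by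
        field_simp
      rw [h3]
      simp
    | succ r ih =>
      have h1 : (∑ y, ps ε (sq S (r + 1) y)) ≤ ∑ y, (ps ε (sq S r y) +
          cl ((ε * sq S r y + 1) / 2) * S (sq S r) y + ε / 4) := by
        apply Finset.sum_le_sum
        intro y _
        exact ps_step ε hε _ _ (hSb _ y)
      rw [Finset.sum_add_distrib, Finset.sum_add_distrib] at h1
      have h2 : (∑ _y : Q, ε / 4) = (Fintype.card Q : ℝ) * (ε / 4) := by simp
      rw [h2] at h1
      have h3 := hS2 (sq S r)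
      have h4 : (∑ j ∈ J, sq S (r + 1) (β j)) = (∑ j ∈ J, sq S r (β j)) +
          ∑ j ∈ J, S (sq S r) (β j) := by
        rw [← Finset.sum_add_distrib]
        rfl
      rw [h4, add_div]
      have h5 : (∑ y, ps ε (sq S (r + 1) y)) / (Fintype.card Q : ℝ) ≤
          (∑ y, ps ε (sq S r y)) / (Fintype.card Q : ℝ) +
          (∑ y, cl ((ε * sq S r y + 1) / 2) * S (sq S r) y) / (Fintype.card Q : ℝ) + ε / 4 := by
        rw [div_le_iff₀ hq0]
        have h6 : ((∑ y, ps ε (sq S r y)) / (Fintype.card Q : ℝ) +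
          (∑ y, cl ((ε * sq S r y + 1) / 2) * S (sq S r) y) / (Fintype.card Q : ℝ) + ε / 4) *
          (Fintype.card Q : ℝ) = (∑ y, ps ε (sq S r y)) +
          (∑ y, cl ((ε * sq S r y + 1) / 2) * S (sq S r) y) +
          (Fintype.card Q : ℝ) * (ε / 4) := by
          field_simp
        rw [h6]
        exact h1
      push_cast
      linarith
  have hfin := hmain R
  -- the hypothesis
  have hHR := hH (fun r => S (sq S r)) (fun r => hS1 _)
  simp only [sq_sum] at hHR
  have h1 : (∑ j ∈ J, sq S R (β j)) / b ≤ (∑ j, max 0 (sq S R (β j))) / b := by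
    apply div_le_div_of_nonneg_right _ hb0.le
    calc ∑ j ∈ J, sq S R (β j) ≤ ∑ j ∈ J, max 0 (sq S R (β j)) :=
          Finset.sum_le_sum (fun j _ => le_max_right _ _)
      _ ≤ ∑ j, max 0 (sq S R (β j)) :=
          Finset.sum_le_sum_of_subset_of_nonneg (Finset.subset_univ _)
            (fun j _ _ => le_max_left _ _)
  have h2 : (∑ y, max 0 (sq S R y)) / (Fintype.card Q : ℝ) ≤
      (∑ y, ps ε (sq S R y)) / (Fintype.card Q : ℝ) := by
    apply div_le_div_of_nonneg_right _ hq0.le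
    exact Finset.sum_le_sum (fun y _ => ps_ge ε hε _)
  have h3 : ε * R / 4 ≤ 1 / (4 * ε) := by linarith
  rw [div_le_iff₀ (by positivity)] at hR
  rw [le_div_iff₀ (by positivity)] at h3
  nlinarith

end TN
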