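import Pool.Agent.Work.MP_ef7f46_tn.Interface

/-!
# Block PARN (MP_ef7f46_co, project TN): the numerical hypotheses hold for large `u`
-/

set_option autoImplicit false
open Classical Finset

noncomputable section

namespace TN

namespace PARN

theorem real_facts (U L E : ℝ) (hL : 64 ≤ L) (hEL : 1 + L + L ^ 2 / 2 ≤ E) (hE : 10000 ≤ E)
    (hU : E ^ 8 ≤ U) :
    0 < U ∧ 10000 ≤ U ∧ L ≤ E ∧ L ^ 2 ≤ 2 * E ∧ L + 2 ≤ U ^ 2 ∧ 24 * (L * E) ≤ U ∧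
    40 * (L ^ 2 * E) ≤ U ∧
    124 * (L ^ 2 * E ^ 2) ≤ U ∧ 10 * E ^ 2 ≤ U ∧ E ≤ U := by
  have hE0 : 0 < E := by linarith
  have hE1 : 1 ≤ E := by linarith
  have hpow : ∀ k : ℕ, k ≤ 8 → E ^ k ≤ U := fun k hk =>
    (pow_le_pow_right₀ hE1 hk).trans hU
  have h1 : E ≤ U := by simpa using hpow 1 (by norm_num)
  have hLE : L ≤ E := by nlinarith
  have hL2 : L ^ 2 ≤ 2 * E := by nlinarith
  have hE3 : E ^ 3 ≤ U := hpow 3 (by norm_num)
  have hE4 : E ^ 4 ≤ U := hpow 4 (by norm_num)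
  have e2 : 0 < E ^ 2 := by positivity
  have e3 : 0 < E ^ 3 := by positivity
  have hU0 : 0 < U := by linarith
  have k1 : 10000 * E ^ 2 ≤ E ^ 3 := by nlinarith
  have k2 : 10000 * E ^ 3 ≤ E ^ 4 := by nlinarith
  refine ⟨hU0, by linarith, hLE, hL2, ?_, ?_, ?_, ?_, ?_, h1⟩
  · nlinarith
  · have : L * E ≤ E * E := mul_le_mul_of_nonneg_right hLE hE0.le
    nlinarith
  · have : L ^ 2 * E ≤ 2 * E * E := mul_le_mul_of_nonneg_right hL2 hE0.le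
    nlinarith
  · have : L ^ 2 * E ^ 2 ≤ 2 * E * E ^ 2 := mul_le_mul_of_nonneg_right hL2 e2.le
    nlinarith
  · nlinarith

theorem exp_pow_eq (x : ℝ) (n : ℕ) (y : ℝ) (h : y = n * x) : Real.exp y = (Real.exp x) ^ n := by
  rw [← Real.exp_nat_mul, h]

theorem exp3_ge : (19 : ℝ) ≤ Real.exp 3 := by
  have h9 : Real.exp 3 = (Real.exp 1) ^ 3 := exp_pow_eq 1 3 3 (by norm_num)
  have h10 : (2.7 : ℝ) ≤ Real.exp 1 := by
    have := Real.exp_one_gt_d9; linarith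
  have h11 : (2.7 : ℝ) ^ 3 ≤ (Real.exp 1) ^ 3 := pow_le_pow_left₀ (by norm_num) h10 3
  norm_num at h11
  rw [h9]; linarith

/-- the elementary numerical facts -/
theorem errs (U L E : ℝ) (hL64 : 64 ≤ L) (hEdef : E = Real.exp L)
    (hEL : 1 + L + L ^ 2 / 2 ≤ E) (hE10 : 10000 ≤ E) (hE8 : E ^ 8 ≤ U) :
    L * ((U ^ 2 + L + 2) * E) * (1 / U ^ 4 + 1 / U ^ 3 + 1 / U ^ 3) ≤ 1 / 4 ∧
    ((U ^ 2 + L + 2) * E) * (5 * L ^ 2 / U ^ 3) ≤ 1 / 4 ∧
    U ^ 2 * Real.exp (2 * L) *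
      (L ^ 2 / U ^ 3 + 10 * (2 * L / U ^ 32 + L ^ 2 / U ^ 3)) ≤ 1 / 4 ∧
    4 * (6 / 400 * L + 1) ≤ U ^ 2 * (1 / U) ∧
    L ^ 2 * E / U ^ 3 + 2 * L * E * (1 / U ^ 4 + 1 / U ^ 3 + 1 / U ^ 3) ≤ 3 / 10 ∧
    10 * Real.exp (-(3 / 5 * L)) + 5 * L ^ 2 / U ^ 32 < 3 / 8 * Real.exp (-(L / 4)) ∧
    10 * L / U ^ 32 ≤ 1 / 800 ∧
    ((1 / U ^ 4) / (1 / U ^ 3)) ^ 2 ≤ 1 / U / 2 := by
  obtain ⟨hU0, hU10, hLE, hL2, hLU, hf1, hf2, hf3, hf4, hEU⟩ :=
    real_facts U L E hL64 hEL hE10 hE8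
  have hE0 : 0 < E := by linarith
  have hL0 : 0 < L := by linarith
  have hU2 : 0 < U ^ 2 := by positivity
  have hU3 : 0 < U ^ 3 := by positivity
  have hUone : 1 ≤ U := by linarith
  have hteps : 1 / U ^ 4 + 1 / U ^ 3 + 1 / U ^ 3 ≤ 3 / U ^ 3 := by
    have h1 : 1 / U ^ 4 ≤ 1 / U ^ 3 :=
      one_div_le_one_div_of_le hU3 (pow_le_pow_right₀ hUone (by norm_num))
    have h2 : (3 : ℝ) / U ^ 3 = 1 / U ^ 3 + 1 / U ^ 3 + 1 / U ^ 3 := by ring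
    linarith
  have hteps0 : 0 ≤ 1 / U ^ 4 + 1 / U ^ 3 + 1 / U ^ 3 := by positivity
  have hRc : (U ^ 2 + L + 2) * E ≤ 2 * U ^ 2 * E := by
    apply mul_le_mul_of_nonneg_right _ hE0.le
    linarith
  have hRc0 : 0 ≤ (U ^ 2 + L + 2) * E := by positivity
  have err1 : L * ((U ^ 2 + L + 2) * E) * (1 / U ^ 4 + 1 / U ^ 3 + 1 / U ^ 3) ≤ 1 / 4 := by
    calc L * ((U ^ 2 + L + 2) * E) * (1 / U ^ 4 + 1 / U ^ 3 + 1 / U ^ 3)
        ≤ L * (2 * U ^ 2 * E) * (3 / U ^ 3) := by gcongr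
      _ = 6 * (L * E) / U := by field_simp; ring
      _ ≤ 1 / 4 := by
          rw [div_le_div_iff₀ hU0 (by norm_num)]
          linarith
  have err2 : ((U ^ 2 + L + 2) * E) * (5 * L ^ 2 / U ^ 3) ≤ 1 / 4 := by
    calc ((U ^ 2 + L + 2) * E) * (5 * L ^ 2 / U ^ 3)
        ≤ (2 * U ^ 2 * E) * (5 * L ^ 2 / U ^ 3) := by gcongr
      _ = 10 * (L ^ 2 * E) / U := by field_simp; ring
      _ ≤ 1 / 4 := by
          rw [div_le_div_iff₀ hU0 (by norm_num)]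
          linarith
  have hU32 : U ^ 3 ≤ U ^ 32 := pow_le_pow_right₀ hUone (by norm_num)
  have h20L : 20 * L ≤ 20 * L ^ 2 := by nlinarith
  have err3 : U ^ 2 * Real.exp (2 * L) *
      (L ^ 2 / U ^ 3 + 10 * (2 * L / U ^ 32 + L ^ 2 / U ^ 3)) ≤ 1 / 4 := by
    have hexp : Real.exp (2 * L) = E ^ 2 := by
      rw [hEdef]; exact exp_pow_eq L 2 _ (by norm_num)
    have h1 : 2 * L / U ^ 32 ≤ 2 * L ^ 2 / U ^ 3 := by
      have : 2 * L ≤ 2 * L ^ 2 := by linarith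
      gcongr
    calc U ^ 2 * Real.exp (2 * L) * (L ^ 2 / U ^ 3 + 10 * (2 * L / U ^ 32 + L ^ 2 / U ^ 3))
        ≤ U ^ 2 * E ^ 2 * (L ^ 2 / U ^ 3 + 10 * (2 * L ^ 2 / U ^ 3 + L ^ 2 / U ^ 3)) := by
          rw [hexp]; gcongr
      _ = 31 * (L ^ 2 * E ^ 2) / U := by field_simp; ring
      _ ≤ 1 / 4 := by
          rw [div_le_div_iff₀ hU0 (by norm_num)]
          linarith
  have bigd : 4 * (6 / 400 * L + 1) ≤ U ^ 2 * (1 / U) := by
    have : U ^ 2 * (1 / U) = U := by field_simp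
    rw [this]; linarith
  have err4 : L ^ 2 * E / U ^ 3 + 2 * L * E * (1 / U ^ 4 + 1 / U ^ 3 + 1 / U ^ 3) ≤ 3 / 10 := by
    have h1 : 2 * L * E * (1 / U ^ 4 + 1 / U ^ 3 + 1 / U ^ 3) ≤ 2 * L * E * (3 / U ^ 3) := by
      gcongr
    have h2 : L ^ 2 * E / U ^ 3 + 2 * L * E * (3 / U ^ 3) = (L ^ 2 * E + 6 * (L * E)) / U ^ 3 := by
      ring
    have h3 : U ≤ U ^ 3 := by
      calc U = U ^ 1 := (pow_one U).symm
        _ ≤ U ^ 3 := pow_le_pow_right₀ hUone (by norm_num)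
    have h4 : (L ^ 2 * E + 6 * (L * E)) / U ^ 3 ≤ 3 / 10 := by
      rw [div_le_div_iff₀ hU3 (by norm_num)]
      nlinarith [mul_pos hL0 hE0, mul_pos (pow_pos hL0 2) hE0]
    linarith
  have poor : 10 * Real.exp (-(3 / 5 * L)) + 5 * L ^ 2 / U ^ 32
      < 3 / 8 * Real.exp (-(L / 4)) := by
    have h1 : Real.exp (-(3 / 5 * L)) = Real.exp (-(L / 4)) * Real.exp (-(7 / 20 * L)) := by
      rw [← Real.exp_add]; congr 1; ring
    have h2 : Real.exp (-(7 / 20 * L)) ≤ 1 / 100 := by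
      have h3 : (100 : ℝ) ≤ Real.exp (7 / 20 * L) := by
        have h5 : (22 : ℝ) ≤ 7 / 20 * L := by linarith
        have h6 : Real.exp 22 = (Real.exp 11) ^ 2 := exp_pow_eq 11 2 22 (by norm_num)
        have h7 : (12 : ℝ) ≤ Real.exp 11 := by
          have := Real.add_one_le_exp (11 : ℝ); linarith
        have h8 : Real.exp 22 ≤ Real.exp (7 / 20 * L) := Real.exp_le_exp.2 h5
        nlinarith
      rw [Real.exp_neg]
      rw [one_div]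
      exact inv_anti₀ (by norm_num) h3
    have h4 : 1 / E ≤ Real.exp (-(L / 4)) := by
      rw [hEdef, one_div, ← Real.exp_neg]
      apply Real.exp_le_exp.2
      linarith
    have h5 : 5 * L ^ 2 / U ^ 32 ≤ 1 / 10 * (1 / E) := by
      have h6 : U ^ 2 ≤ U ^ 32 := pow_le_pow_right₀ hUone (by norm_num)
      rw [div_le_iff₀ (pow_pos hU0 32)]
      have h7 : (1 : ℝ) / 10 * (1 / E) * U ^ 32 = U ^ 32 / (10 * E) := by field_simp
      rw [h7, le_div_iff₀ (by positivity)]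
      have h8 : 5 * L ^ 2 * (10 * E) ≤ 100 * E ^ 2 := by nlinarith
      have h9 : 100 * E ^ 2 ≤ U ^ 2 := by nlinarith
      linarith
    have h6 : 0 < Real.exp (-(L / 4)) := Real.exp_pos _
    have h7 : 10 * Real.exp (-(3 / 5 * L)) ≤ 1 / 10 * Real.exp (-(L / 4)) := by
      rw [h1]; nlinarith
    nlinarith
  have rep : 10 * L / U ^ 32 ≤ 1 / 800 := by
    have h6 : U ^ 2 ≤ U ^ 32 := pow_le_pow_right₀ hUone (by norm_num)
    rw [div_le_div_iff₀ (pow_pos hU0 32) (by norm_num)]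
    nlinarith
  have exc : ((1 / U ^ 4) / (1 / U ^ 3)) ^ 2 ≤ 1 / U / 2 := by
    have h1 : (1 / U ^ 4) / (1 / U ^ 3) = 1 / U := by field_simp
    have h2 : (1 / U) ^ 2 = 1 / U * (1 / U) := by ring
    have h3 : 1 / U ≤ 1 / 2 := one_div_le_one_div_of_le (by norm_num) (by linarith)
    have h4 : 0 < 1 / U := by positivity
    rw [h1, h2]
    nlinarith
  exact ⟨err1, err2, err3, bigd, err4, poor, rep, exc⟩

/-- union bound -/
theorem union_fact (U l L : ℝ) (lam Mn : ℕ) (hl : 30000 ≤ l) (hUl : U = Real.exp l)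
    (hLdef : L = (lam : ℝ)) (hL64 : 64 ≤ L) (hLle : L ≤ l / 400) (hMn : 1 ≤ Mn) :
    (4 : ℝ) ^ (lam * Mn) * (1 / U) ^ ((Mn : ℝ) / 100) +
      (8 : ℝ) ^ (lam * Mn) * (1 / U) ^ ((Mn : ℝ) / 100) ≤ 1 / 10 := by
  obtain ⟨Mr, hMr⟩ : ∃ Mr : ℝ, Mr = (Mn : ℝ) := ⟨_, rfl⟩
  have hM1 : 1 ≤ Mr := by
    rw [hMr]; exact_mod_cast hMn
  have hU0 : 0 < U := by rw [hUl]; exact Real.exp_pos _
  have h1 : (1 / U) ^ (Mr / 100) ≤ Real.exp (-(4 * L * Mr)) := by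
    have h2 : (1 / U) ^ (Mr / 100) = Real.exp (-(l * (Mr / 100))) := by
      rw [hUl, one_div, ← Real.exp_neg, ← Real.exp_mul]; congr 1; ring
    rw [h2]
    apply Real.exp_le_exp.2
    nlinarith
  have h8 : (8 : ℝ) ≤ Real.exp 3 := by
    have := exp3_ge; linarith
  have h3 : (8 : ℝ) ^ (lam * Mn) ≤ Real.exp (3 * L * Mr) := by
    have h4 : (8 : ℝ) ^ (lam * Mn) ≤ (Real.exp 3) ^ (lam * Mn) :=
      pow_le_pow_left₀ (by norm_num) h8 _
    have h5 : Real.exp (3 * L * Mr) = (Real.exp 3) ^ (lam * Mn) := by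
      apply exp_pow_eq
      rw [hLdef, hMr]; push_cast; ring
    rw [h5]; exact h4
  have h4 : (4 : ℝ) ^ (lam * Mn) ≤ (8 : ℝ) ^ (lam * Mn) :=
    pow_le_pow_left₀ (by norm_num) (by norm_num) _
  have h5 : 0 ≤ (1 / U) ^ (Mr / 100) := by positivity
  have h6 : (8 : ℝ) ^ (lam * Mn) * (1 / U) ^ (Mr / 100) ≤ Real.exp (-(L * Mr)) := by
    calc (8 : ℝ) ^ (lam * Mn) * (1 / U) ^ (Mr / 100)
        ≤ Real.exp (3 * L * Mr) * Real.exp (-(4 * L * Mr)) := by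
          apply mul_le_mul h3 h1 h5 (Real.exp_pos _).le
      _ = Real.exp (-(L * Mr)) := by rw [← Real.exp_add]; congr 1; ring
  have h7 : Real.exp (-(L * Mr)) ≤ 1 / 20 := by
    have h9 : (20 : ℝ) ≤ Real.exp (L * Mr) := by
      have h10 : L ≤ L * Mr := by nlinarith
      have h11 := Real.add_one_le_exp (L * Mr)
      linarith
    rw [Real.exp_neg, one_div]
    exact inv_anti₀ (by norm_num) h9
  rw [← hMr]
  have h9 : (4 : ℝ) ^ (lam * Mn) * (1 / U) ^ (Mr / 100) ≤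
      (8 : ℝ) ^ (lam * Mn) * (1 / U) ^ (Mr / 100) :=
    mul_le_mul_of_nonneg_right h4 h5
  linarith

/-- dense models -/
theorem dense_fact (U l L c : ℝ) (R : ℕ) (hl : 30000 ≤ l) (hUl : U = Real.exp l)
    (_hL64 : 64 ≤ L) (hLge : l / 400 < L + 1) (hUbig : 12800000 ≤ U) (hc0 : 0 ≤ c)
    (hR : (R : ℝ) = 2 * U ^ 6)
    (hc : c ≤ (4 * U ^ 53 + 1) ^ (8 * U ^ 50)) :
    U ^ 3 * ((2 * c) ^ R * Real.exp (-(L * U ^ 57 / 16))) ≤ 1 / 10 := by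
  have hU0 : 0 < U := by linarith
  have hUone : 1 ≤ U := by linarith
  obtain ⟨A, hA⟩ : ∃ A : ℝ, A = U ^ 50 := ⟨_, rfl⟩
  have hA1 : 1 ≤ A := by rw [hA]; exact one_le_pow₀ hUone
  have hexp54 : Real.exp (54 * l) = U ^ 54 := by
    rw [hUl]; exact exp_pow_eq l 54 _ (by norm_num)
  have hexp3 : Real.exp (3 * l) = U ^ 3 := by
    rw [hUl]; exact exp_pow_eq l 3 _ (by norm_num)
  have hA4 : (4 * U ^ 53 + 1) ≤ Real.exp (54 * l) := by
    have h2 : 1 ≤ U ^ 53 := one_le_pow₀ hUone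
    rw [hexp54]
    have h3 : U ^ 54 = U ^ 53 * U := pow_succ U 53
    rw [h3]
    nlinarith
  have hcard : c ≤ Real.exp (432 * l * A) := by
    calc c ≤ (4 * U ^ 53 + 1) ^ (8 * U ^ 50) := hc
      _ ≤ (Real.exp (54 * l)) ^ (8 * U ^ 50) :=
          Real.rpow_le_rpow (by positivity) hA4 (by positivity)
      _ = Real.exp (432 * l * A) := by
          rw [← Real.exp_mul, hA]; congr 1; ring
  have h2c : 2 * c ≤ Real.exp (433 * l * A) := by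
    have h1 : (2 : ℝ) ≤ Real.exp (l * A) := by
      have h3 := Real.add_one_le_exp (l * A)
      nlinarith
    calc 2 * c ≤ Real.exp (l * A) * Real.exp (432 * l * A) := by
          apply mul_le_mul h1 hcard hc0 (Real.exp_pos _).le
      _ = Real.exp (433 * l * A) := by rw [← Real.exp_add]; congr 1; ring
  have h2R : (2 * c) ^ R ≤ Real.exp (866 * l * U ^ 56) := by
    calc (2 * c) ^ R
        ≤ (Real.exp (433 * l * A)) ^ R :=
          pow_le_pow_left₀ (by positivity) h2c _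
      _ = Real.exp (866 * l * U ^ 56) := by
          symm
          apply exp_pow_eq
          rw [hR, hA]; ring
  have hfin : 3 * l + (866 * l * U ^ 56 + -(L * U ^ 57 / 16)) ≤ -3 := by
    have h1 : l / 800 ≤ L := by linarith
    obtain ⟨B, hB⟩ : ∃ B : ℝ, B = U ^ 56 := ⟨_, rfl⟩
    have h3 : U ^ 57 = B * U := by rw [hB]; exact pow_succ U 56
    have h4 : 1 ≤ B := by rw [hB]; exact one_le_pow₀ hUone
    rw [h3, ← hB]
    have h5 : l / 800 * (B * U) ≤ L * (B * U) :=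
      mul_le_mul_of_nonneg_right h1 (by positivity)
    have h7 : 1000 * (l * B) ≤ l / 800 * (B * U) / 16 := by
      have h8 : 0 < l * B := by positivity
      have h9 : l / 800 * (B * U) / 16 = (l * B) * (U / 12800) := by ring
      rw [h9]
      nlinarith
    have h10 : l ≤ l * B := by nlinarith
    nlinarith
  calc U ^ 3 * ((2 * c) ^ R * Real.exp (-(L * U ^ 57 / 16)))
      ≤ Real.exp (3 * l) * (Real.exp (866 * l * U ^ 56) * Real.exp (-(L * U ^ 57 / 16))) := by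
        rw [hexp3]
        exact mul_le_mul_of_nonneg_left
          (mul_le_mul_of_nonneg_right h2R (Real.exp_pos _).le) (by positivity)
    _ = Real.exp (3 * l + (866 * l * U ^ 56 + -(L * U ^ 57 / 16))) := by
        rw [Real.exp_add, Real.exp_add]
    _ ≤ Real.exp (-3) := Real.exp_le_exp.2 hfin
    _ ≤ 1 / 10 := by
        have h9 := exp3_ge
        rw [Real.exp_neg, one_div]
        exact inv_anti₀ (by norm_num) (by linarith)

end PARN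

theorem parn_ok : Stmt_PARN := by
  refine ⟨⌈Real.exp 30000⌉₊, fun u hu Q Λ _ _ inc net hnet => ?_⟩
  have hU1 : Real.exp 30000 ≤ (u : ℝ) := (Nat.le_ceil _).trans (by exact_mod_cast hu)
  obtain ⟨U, hUdef⟩ : ∃ U : ℝ, U = (u : ℝ) := ⟨_, rfl⟩
  obtain ⟨l, hldef⟩ : ∃ l : ℝ, l = Real.log U := ⟨_, rfl⟩
  obtain ⟨lam, hlam⟩ : ∃ lam : ℕ, lam = lamf u := ⟨_, rfl⟩
  obtain ⟨L, hLdef⟩ : ∃ L : ℝ, L = (lam : ℝ) := ⟨_, rfl⟩
  obtain ⟨E, hEdef⟩ : ∃ E : ℝ, E = Real.exp L := ⟨_, rfl⟩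
  rw [← hUdef] at hU1 hnet
  have hU0 : 0 < U := lt_of_lt_of_le (Real.exp_pos _) hU1
  have hl : 30000 ≤ l := by
    rw [hldef]; exact (Real.le_log_iff_exp_le hU0).2 hU1
  have hUl : U = Real.exp l := by rw [hldef, Real.exp_log hU0]
  have hLle : L ≤ l / 400 := by
    rw [hLdef, hldef, hUdef, hlam]
    exact Nat.floor_le (by
      have : 0 ≤ Real.log (u : ℝ) := by rw [← hUdef, ← hldef]; linarith
      positivity)
  have hLge : l / 400 < L + 1 := by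
    rw [hLdef, hldef, hUdef, hlam]
    exact Nat.lt_floor_add_one _
  have hL64 : 64 ≤ L := by linarith
  have hL64n : 64 ≤ lam := by
    have : (64 : ℝ) ≤ (lam : ℝ) := by rw [← hLdef]; exact hL64
    exact_mod_cast this
  have hE0 : 0 < E := by rw [hEdef]; exact Real.exp_pos _
  have hEL : 1 + L + L ^ 2 / 2 ≤ E := by
    rw [hEdef]; exact Real.quadratic_le_exp_of_nonneg (by linarith)
  have hE1 : 1 ≤ E := by nlinarith
  have hE10 : 10000 ≤ E := by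
    have h1 : Real.exp 64 ≤ E := by rw [hEdef]; exact Real.exp_le_exp.2 hL64
    have h2 : Real.exp 64 = (Real.exp 8) ^ 8 := PARN.exp_pow_eq 8 8 64 (by norm_num)
    have h3 : (9 : ℝ) ≤ Real.exp 8 := by
      have := Real.add_one_le_exp (8 : ℝ); linarith
    have h4 : (9 : ℝ) ^ 8 ≤ (Real.exp 8) ^ 8 := pow_le_pow_left₀ (by norm_num) h3 8
    rw [h2] at h1
    norm_num at h4
    linarith
  have hE8 : E ^ 8 ≤ U := by
    rw [hEdef, hUl, ← Real.exp_nat_mul]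
    apply Real.exp_le_exp.2
    push_cast
    linarith
  have hUbig : 12800000 ≤ U := by
    have h6 : E ^ 2 ≤ U := (pow_le_pow_right₀ hE1 (by norm_num)).trans hE8
    nlinarith
  have hu1 : 1 ≤ u := by
    have : (1 : ℝ) ≤ (u : ℝ) := by rw [← hUdef]; linarith
    exact_mod_cast this
  obtain ⟨err1, err2, err3, bigd, err4, poor, rep, exc⟩ :=
    PARN.errs U L E hL64 hEdef hEL hE10 hE8
  have hunion := PARN.union_fact U l L lam (u ^ 66) hl hUl hLdef hL64 hLle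
    (Nat.one_le_pow _ _ hu1)
  have hdense := PARN.dense_fact U l L (net.card : ℝ) (2 * u ^ 6) hl hUl hL64 hLge hUbig
    (Nat.cast_nonneg _) (by push_cast; rw [hUdef]) hnet
  have hm3 : ((u ^ 3 : ℕ) : ℝ) = U ^ 3 := by rw [hUdef]; exact Nat.cast_pow u 3
  have hN32 : ((u ^ 32 : ℕ) : ℝ) = U ^ 32 := by rw [hUdef]; exact Nat.cast_pow u 32
  have hb63 : ((lam * u ^ 63 : ℕ) : ℝ) = L * U ^ 63 := by
    rw [hUdef, hLdef, Nat.cast_mul, Nat.cast_pow]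
  have hX : mkX u inc net = { inc := inc, N := u ^ 32, M := u ^ 66, m := u ^ 3, b := lam * u ^ 63, lam := lam, net := net, tau := 1 / U ^ 4, eta := 1 / U ^ 3, eps := 1 / U ^ 3, C := U ^ 2, del := 1 / U } := by
    rw [hUdef, hlam]; rfl
  rw [hX]
  refine ⟨hL64n, exc, ?_, ?_, ?_, ?_, ?_, ?_, ?_, ?_, ?_⟩
  · show (lam : ℝ) * ((U ^ 2 + (lam : ℝ) + 2) * Real.exp (lam : ℝ)) *
      (1 / U ^ 4 + 1 / U ^ 3 + 1 / U ^ 3) ≤ 1 / 4
    rw [← hLdef, ← hEdef]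
    exact err1
  · show ((U ^ 2 + (lam : ℝ) + 2) * Real.exp (lam : ℝ)) *
      (5 * (lam : ℝ) ^ 2 / ((u ^ 3 : ℕ) : ℝ)) ≤ 1 / 4
    rw [hm3, ← hLdef, ← hEdef]
    exact err2
  · show U ^ 2 * Real.exp (2 * (lam : ℝ)) * ((lam : ℝ) ^ 2 / ((u ^ 3 : ℕ) : ℝ) +
      10 * (2 * (lam : ℝ) / ((u ^ 32 : ℕ) : ℝ) + (lam : ℝ) ^ 2 / ((u ^ 3 : ℕ) : ℝ))) ≤ 1 / 4
    rw [hm3, hN32, ← hLdef]
    exact err3
  · show 4 * (6 / 400 * (lam : ℝ) + 1) ≤ U ^ 2 * (1 / U)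
    rw [← hLdef]
    exact bigd
  · show (lam : ℝ) ^ 2 * Real.exp (lam : ℝ) / ((u ^ 3 : ℕ) : ℝ) +
      2 * (lam : ℝ) * Real.exp (lam : ℝ) *
        (1 / U ^ 4 + 1 / U ^ 3 + 1 / U ^ 3) ≤ 3 / 10
    rw [hm3, ← hLdef, ← hEdef]
    exact err4
  · show 10 * Real.exp (-(3 / 5 * (lam : ℝ))) + 5 * (lam : ℝ) ^ 2 / ((u ^ 32 : ℕ) : ℝ)
      < 3 / 8 * Real.exp (-((lam : ℝ) / 4))
    rw [hN32, ← hLdef]
    exact poor
  · show 10 * (lam : ℝ) / ((u ^ 32 : ℕ) : ℝ) ≤ 1 / 800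
    rw [hN32, ← hLdef]
    exact rep
  · exact hunion
  · refine ⟨2 * u ^ 6, ?_, ?_⟩
    · show 2 / (1 / U ^ 3) ^ 2 ≤ ((2 * u ^ 6 : ℕ) : ℝ)
      have h1 : ((2 * u ^ 6 : ℕ) : ℝ) = 2 * U ^ 6 := by
        rw [hUdef, Nat.cast_mul, Nat.cast_pow]; norm_num
      rw [h1]
      apply le_of_eq
      have hUne : U ≠ 0 := hU0.ne'
      field_simp
    · show ((u ^ 3 : ℕ) : ℝ) * ((2 * (net.card : ℝ)) ^ (2 * u ^ 6) *
        Real.exp (-(((lam * u ^ 63 : ℕ) : ℝ) * (1 / U ^ 3) ^ 2 / 16))) ≤ 1 / 10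
      have h2 : ((lam * u ^ 63 : ℕ) : ℝ) * (1 / U ^ 3) ^ 2 / 16 = L * U ^ 57 / 16 := by
        rw [hb63]
        have hUne : U ≠ 0 := hU0.ne'
        field_simp
      rw [hm3, h2]
      exact hdense

end TN
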